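import Pool.Agent.H488.R.Ru
import Pool.Agent.H488.S.Joint

/-!
# Near relations between numbers `B_i(y) x_i + G_i(y)` with arbitrary `y`: the codimension
-/

set_option autoImplicit false
set_option linter.unusedSectionVars false

namespace Pool.Agent.H488.R

open Pool.Agent.H488.M (vl Bd Meas)
open Pool.Agent.N743.SS (lenM)

/-- the transcendence degree of the field generated by a set -/
noncomputable def rk (S : Set ℂ) : ℕ∞ := (AlgebraicIndependent.matroid ℚ ℂ).eRk S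

lemma rk_iUnion {J : Type} [Fintype J] (A : J → Set ℂ) : rk (⋃ j, A j) ≤ ∑ j, rk (A j) := by
  classical
  suffices h : ∀ s : Finset J, rk (⋃ j ∈ s, A j) ≤ ∑ j ∈ s, rk (A j) by
    have := h Finset.univ
    simpa using this
  intro s
  induction s using Finset.induction_on with
  | empty => simp [rk]
  | insert a s ha ih =>
    rw [Finset.set_biUnion_insert, Finset.sum_insert ha]
    exact ((AlgebraicIndependent.matroid ℚ ℂ).eRk_union_le_eRk_add_eRk _ _).trans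
      (add_le_add le_rfl ih)

lemma rk_mono {S T : Set ℂ} (h : S ⊆ T) : rk S ≤ rk T :=
  (AlgebraicIndependent.matroid ℚ ℂ).eRk_mono h

/-- elements which are algebraic over the field generated by `S` -/
def cls (S : Set ℂ) : Set ℂ := {z | IsAlgebraic (Algebra.adjoin ℚ S) z}

lemma cls_eq (S : Set ℂ) : (AlgebraicIndependent.matroid ℚ ℂ).closure S = cls S := by
  rw [AlgebraicIndependent.matroid_closure_eq]
  rfl

lemma rk_cls (S : Set ℂ) : rk (cls S) = rk S := by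
  rw [rk, ← cls_eq, Matroid.eRk_closure_eq, rk]

lemma mem_cls {S : Set ℂ} {z : ℂ} (h : z ∈ S) : z ∈ cls S :=
  isAlgebraic_algebraMap (⟨z, Algebra.subset_adjoin h⟩ : Algebra.adjoin ℚ S)

lemma alg_cls {S : Set ℂ} {z : ℂ} (h : IsAlgebraic ℚ z) : z ∈ cls S :=
  h.extendScalars (algebraMap ℚ (Algebra.adjoin ℚ S)).injective

lemma cls_add {S : Set ℂ} {z w : ℂ} (hz : z ∈ cls S) (hw : w ∈ cls S) : z + w ∈ cls S :=
  IsAlgebraic.add hz hw

lemma cls_mul {S : Set ℂ} {z w : ℂ} (hz : z ∈ cls S) (hw : w ∈ cls S) : z * w ∈ cls S :=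
  IsAlgebraic.mul hz hw

lemma cls_neg {S : Set ℂ} {z : ℂ} (hz : z ∈ cls S) : -z ∈ cls S := IsAlgebraic.neg hz

lemma cls_inv {S : Set ℂ} {z : ℂ} (hz : z ∈ cls S) : z⁻¹ ∈ cls S := IsAlgebraic.inv hz

lemma cls_vl {S : Set ℂ} {ρ : Type} (x : ρ → ℂ) (hx : ∀ i, x i ∈ cls S) (P : MvPolynomial ρ ℤ) :
    vl x P ∈ cls S := by
  induction P using MvPolynomial.induction_on with
  | C a =>
    rw [vl, MvPolynomial.aeval_C]
    have h := isAlgebraic_algebraMap (R := ℚ) (A := ℂ) (a : ℚ)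
    have e : (algebraMap ℚ ℂ) (a : ℚ) = (algebraMap ℤ ℂ) a := by simp
    rw [e] at h
    exact alg_cls h
  | add p q hp hq =>
    rw [vl, map_add]
    exact cls_add hp hq
  | mul_X p i hp =>
    rw [vl, map_mul, MvPolynomial.aeval_X]
    exact cls_mul hp (hx i)

lemma rk_alg {ρ ω : Type} (y : ρ → ℂ) (a : ω → ℂ) (ha : ∀ i, IsAlgebraic ℚ (a i)) (S : Set ℂ) :
    rk (Set.range y ∪ Set.range a ∪ S) ≤ rk (Set.range y ∪ S) := by
  rw [← rk_cls (Set.range y ∪ S)]
  refine (AlgebraicIndependent.matroid ℚ ℂ).eRk_mono ?_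
  rintro z ((hz | ⟨i, rfl⟩) | hz)
  · exact mem_cls (Or.inl hz)
  · exact alg_cls (ha i)
  · exact mem_cls (Or.inr hz)

lemma rk_range_le {ρ : Type} [Fintype ρ] (y : ρ → ℂ) : rk (Set.range y) ≤ Fintype.card ρ := by
  refine ((AlgebraicIndependent.matroid ℚ ℂ).eRk_le_encard _).trans ?_
  rw [← Set.image_univ]
  refine (Set.encard_image_le _ _).trans ?_
  rw [Set.encard_univ, ENat.card_eq_coe_fintype_card]

lemma rk_of_ind {ρ : Type} [Fintype ρ] (x : ρ → ℂ) (hx : AlgebraicIndependent ℚ x) :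
    rk (Set.range x) = Fintype.card ρ := by
  have h1 : (AlgebraicIndependent.matroid ℚ ℂ).Indep (Set.range x) := hx.coe_range
  rw [rk, h1.eRk_eq_encard, ← Set.image_univ, hx.injective.encard_image, Set.encard_univ,
    ENat.card_eq_coe_fintype_card]

/-- independent coordinates -/
lemma exists_coord {ρ : Type} [Fintype ρ] (z : ρ → ℂ) (n : ℕ) (h : (n : ℕ∞) ≤ rk (Set.range z)) :
    ∃ S : Finset ρ, S.card = n ∧ AlgebraicIndependent ℚ fun i : S => z i := by
  classical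
  obtain ⟨I, hI, hind, hc⟩ := Matroid.le_eRk_iff.1 h
  choose f hf using fun w : I => hI w.2
  have hfi : Function.Injective f := by
    intro a b hab
    apply Subtype.ext
    rw [← hf a, ← hf b, hab]
  have hfin : I.Finite := Set.finite_of_encard_eq_coe hc
  let _ : Fintype I := hfin.fintype
  refine ⟨Finset.univ.map ⟨f, hfi⟩, ?_, ?_⟩
  · rw [Finset.card_map, Finset.card_univ]
    have h1 : I.encard = (Fintype.card I : ℕ∞) := by
      rw [Set.encard, ENat.card_eq_coe_fintype_card]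
    rw [h1] at hc
    exact_mod_cast hc
  · have h1 : AlgebraicIndependent ℚ ((↑) : I → ℂ) := hind
    choose g hg using fun i : (Finset.univ.map ⟨f, hfi⟩ : Finset ρ) => (Finset.mem_map.1 i.2)
    have hgi : Function.Injective g := by
      intro a b hab
      apply Subtype.ext
      rw [← (hg a).2, ← (hg b).2, hab]
    have h2 := h1.comp g hgi
    have h3 : ((↑) : I → ℂ) ∘ g = fun i : (Finset.univ.map ⟨f, hfi⟩ : Finset ρ) => z i := by
      funext i
      show (g i : ℂ) = z i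
      rw [← hf (g i)]
      congr 1
      exact (hg i).2
    rwa [h3] at h2

lemma lenM_coeff {ρ : Type} (Q : MvPolynomial ρ ℤ) (ν : ρ →₀ ℕ) : |((Q.coeff ν : ℤ) : ℝ)| ≤ lenM Q := by
  rw [lenM]
  by_cases hν : ν ∈ Q.support
  · exact Finset.single_le_sum (f := fun l => |((Q.coeff l : ℤ) : ℝ)|) (fun _ _ => abs_nonneg _) hν
  · rw [MvPolynomial.notMem_support_iff.1 hν, Int.cast_zero, abs_zero]
    exact Finset.sum_nonneg fun _ _ => abs_nonneg _

lemma lenM_nonneg {ρ : Type} (Q : MvPolynomial ρ ℤ) : 0 ≤ lenM Q := by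
  rw [lenM]; exact Finset.sum_nonneg fun _ _ => abs_nonneg _

lemma totalDegree_le_of {ρ : Type} [Fintype ρ] (P : MvPolynomial ρ ℤ) (d : ℕ)
    (h : ∀ o, P.degreeOf o ≤ d) : P.totalDegree ≤ Fintype.card ρ * d := by
  rw [MvPolynomial.totalDegree]
  refine Finset.sup_le fun m hm => ?_
  rw [Finsupp.sum_fintype _ _ (fun _ => rfl), ← smul_eq_mul, ← Finset.card_univ]
  exact Finset.sum_le_card_nsmul _ _ _ fun o _ => (MvPolynomial.degreeOf_le_iff.1 (h o)) m hm

lemma exists_int_poly {z : ℂ} (hz : IsAlgebraic ℚ z) :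
    ∃ q : Polynomial ℤ, q ≠ 0 ∧ Polynomial.aeval z q = 0 := by
  have h : IsAlgebraic ℤ z := (IsFractionRing.isAlgebraic_iff ℤ ℚ ℂ).2 hz
  exact h

variable {σ τ ω J : Type} [Fintype σ] [Fintype τ] [Fintype ω] [Fintype J]

/-- the variables -/
abbrev Vr (σ τ ω J : Type) : Type := (τ ⊕ (J × ω)) ⊕ (J × σ)

/-- the embedding of the variables of the coefficients -/
def emb (σ τ ω J : Type) (j : J) : τ ⊕ ω → Vr σ τ ω J :=
  Sum.elim (fun i => Sum.inl (Sum.inl i)) fun w => Sum.inl (Sum.inr (j, w))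

/-- the variables `Y` and the polynomials `B X + G` -/
noncomputable def Fj (Bp Gp : σ → MvPolynomial (τ ⊕ ω) ℤ) (j : J) :
    τ ⊕ σ → MvPolynomial (Vr σ τ ω J) ℤ :=
  Sum.elim (fun l => MvPolynomial.X (Sum.inl (Sum.inl l))) fun i =>
    MvPolynomial.rename (emb σ τ ω J j) (Bp i) * MvPolynomial.X (Sum.inr (j, i)) +
      MvPolynomial.rename (emb σ τ ω J j) (Gp i)

/-- the numbers `B x + G` -/
noncomputable def uj (Bp Gp : σ → MvPolynomial (τ ⊕ ω) ℤ) (y : τ → ℂ) (a : ω → ℂ) (x : σ → ℂ) (i : σ) : ℂ :=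
  vl (Sum.elim y a) (Bp i) * x i + vl (Sum.elim y a) (Gp i)

lemma ren_val (y : τ → ℂ) (a : J → ω → ℂ) (x : J × σ → ℂ) (j : J) (Q : MvPolynomial (τ ⊕ ω) ℤ) :
    vl (Sum.elim (Sum.elim y fun p : J × ω => a p.1 p.2) x) (MvPolynomial.rename (emb σ τ ω J j) Q) =
      vl (Sum.elim y (a j)) Q := by
  rw [vl, vl, MvPolynomial.aeval_rename]
  congr 2
  funext i
  rcases i with i | i <;> rfl

lemma Fj_val (Bp Gp : σ → MvPolynomial (τ ⊕ ω) ℤ) (y : τ → ℂ) (a : J → ω → ℂ) (x : J × σ → ℂ) (j : J)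
    (P : MvPolynomial (τ ⊕ σ) ℤ) :
    vl (Sum.elim (Sum.elim y fun p : J × ω => a p.1 p.2) x) (MvPolynomial.aeval (Fj Bp Gp j) P) =
      vl (Sum.elim y (uj Bp Gp y (a j) fun i => x (j, i))) P := by
  rw [vl, vl, MvPolynomial.comp_aeval_apply]
  congr 2
  funext i
  rcases i with l | i
  · rw [Fj, Sum.elim_inl, MvPolynomial.aeval_X]
    rfl
  · have h1 := ren_val y a x j (Bp i)
    have h2 := ren_val y a x j (Gp i)
    rw [vl] at h1 h2
    rw [Fj, Sum.elim_inr, map_add, map_mul, h1, h2, MvPolynomial.aeval_X]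
    rfl

lemma Fj_val' (Bp Gp : σ → MvPolynomial (τ ⊕ ω) ℤ) (y : τ → ℂ) (a : J → ω → ℂ) (x : J × σ → ℂ)
    (j : J) (i : σ) :
    vl (Sum.elim (Sum.elim y fun p : J × ω => a p.1 p.2) x) (Fj Bp Gp j (Sum.inr i)) =
      uj Bp Gp y (a j) (fun i => x (j, i)) i := by
  have h := Fj_val Bp Gp y a x j (MvPolynomial.X (Sum.inr i))
  rw [MvPolynomial.aeval_X] at h
  rw [h, vl, MvPolynomial.aeval_X]
  rfl

/-- **The codimension of near relations.** -/
theorem cod_gen (x : J × σ → ℂ) (hx : Meas x) (Bp Gp : σ → MvPolynomial (τ ⊕ ω) ℤ) (a : J → ω → ℂ)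
    (ha : ∀ j w, IsAlgebraic ℚ (a j w)) (d m : ℕ) :
    ∃ κ : ℕ, ∀ R ρ : ℝ, 0 < ρ → ∃ c : ℝ, 0 < c ∧ ∀ y : τ → ℂ, (∀ i, ‖y i‖ ≤ R) →
      (∀ j i, ρ ≤ ‖vl (Sum.elim y (a j)) (Bp i)‖) → ∀ H : ℝ, 1 ≤ H →
      ∀ Ps : Set (MvPolynomial (τ ⊕ σ) ℤ), (∀ P ∈ Ps, Bd d H P) →
      (∀ P ∈ Ps, ∀ j, ‖vl (Sum.elim y (uj Bp Gp y (a j) fun i => x (j, i))) P‖ < c / H ^ κ) →
      ∃ (y' : τ → ℂ) (a' : J → ω → ℂ),
        (∀ i, ‖y' i - y i‖ ≤ 1 / H ^ m) ∧
        (∀ j i, ‖uj Bp Gp y' (a' j) (fun i => x (j, i)) i -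
          uj Bp Gp y (a j) (fun i => x (j, i)) i‖ ≤ 1 / H ^ m) ∧
        (∀ P ∈ Ps, ∀ j, vl (Sum.elim y' (uj Bp Gp y' (a' j) fun i => x (j, i))) P = 0) ∧
        ((Fintype.card J * Fintype.card σ : ℕ) : ℕ∞) ≤
          rk (Set.range y' ∪ ⋃ j, Set.range (uj Bp Gp y' (a' j) fun i => x (j, i))) := by
  classical
  -- degrees and heights
  choose dj Bj hBj1 hBj using fun j : J => subst_Bd (Fj Bp Gp j) d
  choose q hq0 hq using fun p : J × ω => exists_int_poly (ha p.1 p.2)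
  obtain ⟨Q, hQ⟩ : ∃ Q : J × ω → MvPolynomial (Vr σ τ ω J) ℤ,
      Q = fun p => Polynomial.aeval (MvPolynomial.X (Sum.inl (Sum.inr p))) (q p) := ⟨_, rfl⟩
  obtain ⟨BB, hBB⟩ : ∃ BB : J × σ → MvPolynomial (Vr σ τ ω J) ℤ,
      BB = fun p => MvPolynomial.rename (emb σ τ ω J p.1) (Bp p.2) := ⟨_, rfl⟩
  obtain ⟨FF, hFF⟩ : ∃ FF : J × σ → MvPolynomial (Vr σ τ ω J) ℤ,
      FF = fun p => Fj Bp Gp p.1 (Sum.inr p.2) := ⟨_, rfl⟩
  obtain ⟨D, hD⟩ : ∃ D : ℕ, D = (∑ j, Fintype.card (Vr σ τ ω J) * dj j) +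
      (∑ p, (Q p).totalDegree) + (∑ p, (BB p).totalDegree) + ∑ p, (FF p).totalDegree := ⟨_, rfl⟩
  obtain ⟨k, htr⟩ := H596.U.transfer (τ := τ ⊕ (J × ω)) (S.meas_conv hx) D 1 (m + 1)
  refine ⟨k, fun R ρ hρ => ?_⟩
  obtain ⟨K, hK⟩ : ∃ K : ℝ, K = 2 + |R| + (∑ p : J × ω, ‖a p.1 p.2‖) + (∑ j, Bj j) +
      (∑ p, lenM (Q p)) + (∑ p, lenM (BB p)) + (∑ p, lenM (FF p)) + 2 / ρ := ⟨_, rfl⟩
  have s1 : 0 ≤ ∑ p : J × ω, ‖a p.1 p.2‖ := Finset.sum_nonneg fun _ _ => norm_nonneg _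
  have s2 : 0 ≤ ∑ j, Bj j := Finset.sum_nonneg fun j _ => by linarith [hBj1 j]
  have s3 : 0 ≤ ∑ p, lenM (Q p) := Finset.sum_nonneg fun _ _ => lenM_nonneg _
  have s4 : 0 ≤ ∑ p, lenM (BB p) := Finset.sum_nonneg fun _ _ => lenM_nonneg _
  have s6 : 0 ≤ ∑ p, lenM (FF p) := Finset.sum_nonneg fun _ _ => lenM_nonneg _
  have s5 : 0 < 2 / ρ := by positivity
  have hR0 : 0 ≤ |R| := abs_nonneg R
  have hK2 : 2 ≤ K := by rw [hK]; linarith
  refine ⟨1 / K ^ k, by positivity, fun y hy hlow H hH Ps hPs hsm => ?_⟩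
  have hH0 : 0 ≤ H := by linarith
  have hKH : K ≤ K * H := le_mul_of_one_le_right (by linarith) hH
  obtain ⟨t, ht⟩ : ∃ t : τ ⊕ (J × ω) → ℂ, t = Sum.elim y fun p : J × ω => a p.1 p.2 := ⟨_, rfl⟩
  have htb : ∀ i, ‖t i‖ ≤ (K * H) ^ 1 := by
    intro i
    rw [pow_one]
    refine le_trans ?_ hKH
    rw [ht]
    rcases i with i | p
    · have h1 : ‖y i‖ ≤ |R| := (hy i).trans (le_abs_self R)
      rw [Sum.elim_inl, hK]; linarith
    · have h1 : ‖a p.1 p.2‖ ≤ ∑ p : J × ω, ‖a p.1 p.2‖ :=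
        Finset.single_le_sum (f := fun p : J × ω => ‖a p.1 p.2‖) (fun _ _ => norm_nonneg _)
          (Finset.mem_univ p)
      rw [Sum.elim_inr, hK]; linarith
  have hclose : ∀ v : ℝ, 0 ≤ v → v * (K * H) ^ (m + 1) ≤ 1 → v ≤ 1 / H ^ m := by
    intro v hv hvH
    rw [le_div_iff₀ (by positivity)]
    refine le_trans (mul_le_mul_of_nonneg_left ?_ hv) hvH
    have h1 : H ≤ K * H := le_mul_of_one_le_left hH0 (by linarith)
    calc H ^ m ≤ (K * H) ^ m := pow_le_pow_left₀ hH0 h1 m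
      _ ≤ (K * H) ^ (m + 1) := pow_le_pow_right₀ (hH.trans h1) (Nat.le_succ m)
  obtain ⟨t', htc, htr⟩ := htr (K * H) (hK2.trans hKH) t htb
  obtain ⟨y', hy'⟩ : ∃ y' : τ → ℂ, y' = fun i => t' (Sum.inl i) := ⟨_, rfl⟩
  obtain ⟨a', ha'⟩ : ∃ a' : J → ω → ℂ, a' = fun j w => t' (Sum.inr (j, w)) := ⟨_, rfl⟩
  have ht' : t' = Sum.elim y' fun p : J × ω => a' p.1 p.2 := by
    funext i
    rw [hy', ha']
    rcases i with i | p <;> rfl
  refine ⟨y', a', ?_, ?_, ?_, ?_⟩
  · intro i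
    refine hclose _ (norm_nonneg _) ?_
    have h1 := htc (Sum.inl i)
    rw [ht, Sum.elim_inl] at h1
    rw [hy']
    exact h1
  · intro j i
    refine hclose _ (norm_nonneg _) ?_
    have h1 : (FF (j, i)).totalDegree ≤ D := by
      have h2 : (FF (j, i)).totalDegree ≤ ∑ p, (FF p).totalDegree :=
        Finset.single_le_sum (f := fun p => (FF p).totalDegree)
          (fun _ _ => Nat.zero_le _) (Finset.mem_univ (j, i))
      rw [hD]; omega
    have h2 : ∀ m, |(((FF (j, i)).coeff m : ℤ) : ℝ)| ≤ K * H := by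
      intro m
      refine (lenM_coeff _ m).trans (le_trans ?_ hKH)
      have h3 : lenM (FF (j, i)) ≤ ∑ p, lenM (FF p) :=
        Finset.single_le_sum (f := fun p => lenM (FF p)) (fun _ _ => lenM_nonneg _)
          (Finset.mem_univ (j, i))
      rw [hK]; linarith
    have h3 := (htr _ h1 h2).1
    have e1 := Fj_val' Bp Gp y a x j i
    have e2 := Fj_val' Bp Gp y' a' x j i
    rw [← ht] at e1
    rw [← ht'] at e2
    rw [vl] at e1 e2
    have e3 : FF (j, i) = Fj Bp Gp j (Sum.inr i) := by rw [hFF]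
    rw [e3, e1, e2] at h3
    exact h3
  · intro P hP j
    have hBdP := hBj j P H hH0 (hPs P hP)
    have h1 : (MvPolynomial.aeval (Fj Bp Gp j) P).totalDegree ≤ D := by
      refine (totalDegree_le_of _ _ hBdP.1).trans ?_
      have h2 : Fintype.card (Vr σ τ ω J) * dj j ≤ ∑ j, Fintype.card (Vr σ τ ω J) * dj j :=
        Finset.single_le_sum (f := fun j => Fintype.card (Vr σ τ ω J) * dj j)
          (fun _ _ => Nat.zero_le _) (Finset.mem_univ j)
      rw [hD]; omega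
    have h2 : ∀ m, |(((MvPolynomial.aeval (Fj Bp Gp j) P).coeff m : ℤ) : ℝ)| ≤ K * H := by
      intro m
      refine (hBdP.2 m).trans (mul_le_mul_of_nonneg_right ?_ hH0)
      have h3 : Bj j ≤ ∑ j, Bj j := Finset.single_le_sum (f := Bj)
        (fun j _ => by linarith [hBj1 j]) (Finset.mem_univ j)
      rw [hK]; linarith
    have h3 := (htr _ h1 h2).2
    have e1 := Fj_val Bp Gp y a x j P
    have e2 := Fj_val Bp Gp y' a' x j P
    rw [← ht] at e1
    rw [← ht'] at e2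
    rw [vl] at e1 e2
    rw [e1, e2] at h3
    refine h3 ?_
    have h4 := hsm P hP j
    rw [div_div, ← mul_pow] at h4
    have hKHp : 0 < (K * H) ^ k := by positivity
    rw [lt_div_iff₀ hKHp] at h4
    exact h4.le
  · -- the numbers `a'` are algebraic
    have halg : ∀ j w, IsAlgebraic ℚ (a' j w) := by
      intro j w
      have h1 : (Q (j, w)).totalDegree ≤ D := by
        have h2 : (Q (j, w)).totalDegree ≤ ∑ p, (Q p).totalDegree :=
          Finset.single_le_sum (f := fun p => (Q p).totalDegree)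
            (fun _ _ => Nat.zero_le _) (Finset.mem_univ (j, w))
        rw [hD]; omega
      have h2 : ∀ m, |(((Q (j, w)).coeff m : ℤ) : ℝ)| ≤ K * H := by
        intro m
        refine (lenM_coeff _ m).trans (le_trans ?_ hKH)
        have h3 : lenM (Q (j, w)) ≤ ∑ p, lenM (Q p) :=
          Finset.single_le_sum (f := fun p => lenM (Q p)) (fun _ _ => lenM_nonneg _)
            (Finset.mem_univ (j, w))
        rw [hK]; linarith
      have h3 := (htr _ h1 h2).2
      have e1 : ∀ s : τ ⊕ (J × ω) → ℂ, MvPolynomial.aeval (Sum.elim s x) (Q (j, w)) =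
          Polynomial.aeval (s (Sum.inr (j, w))) (q (j, w)) := by
        intro s
        rw [hQ, ← Polynomial.aeval_algHom_apply, MvPolynomial.aeval_X]
        rfl
      rw [e1, e1, ht, Sum.elim_inr, hq (j, w), norm_zero, zero_mul] at h3
      have h4 := h3 zero_le_one
      have h5 : IsAlgebraic ℤ (a' j w) := ⟨q (j, w), hq0 _, by rw [ha']; exact h4⟩
      exact h5.extendScalars (RingHom.injective_int (algebraMap ℤ ℚ))
    -- the numbers `B` do not vanish
    have hBne : ∀ j i, vl (Sum.elim y' (a' j)) (Bp i) ≠ 0 := by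
      intro j i h0
      have h1 : (BB (j, i)).totalDegree ≤ D := by
        have h2 : (BB (j, i)).totalDegree ≤ ∑ p, (BB p).totalDegree :=
          Finset.single_le_sum (f := fun p => (BB p).totalDegree)
            (fun _ _ => Nat.zero_le _) (Finset.mem_univ (j, i))
        rw [hD]; omega
      have h2 : ∀ m, |(((BB (j, i)).coeff m : ℤ) : ℝ)| ≤ K * H := by
        intro m
        refine (lenM_coeff _ m).trans (le_trans ?_ hKH)
        have h3 : lenM (BB (j, i)) ≤ ∑ p, lenM (BB p) :=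
          Finset.single_le_sum (f := fun p => lenM (BB p)) (fun _ _ => lenM_nonneg _)
            (Finset.mem_univ (j, i))
        rw [hK]; linarith
      have h3 := (htr _ h1 h2).1
      have e1 := ren_val y a x j (Bp i)
      have e2 := ren_val y' a' x j (Bp i)
      rw [← ht] at e1
      rw [← ht', h0] at e2
      rw [vl] at e1 e2
      have e3 : BB (j, i) = MvPolynomial.rename (emb σ τ ω J j) (Bp i) := by rw [hBB]
      rw [e3, e1, e2, zero_sub, norm_neg] at h3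
      have h4 := hlow j i
      have h5 : 2 / ρ ≤ (K * H) ^ (m + 1) := by
        have h6 : 2 / ρ ≤ K * H := by
          refine le_trans ?_ hKH
          rw [hK]; linarith
        exact h6.trans (le_self_pow₀ ((by linarith : (1 : ℝ) ≤ K).trans hKH) (Nat.succ_ne_zero m))
      have h6 : ρ * (2 / ρ) = 2 := by field_simp
      have h7 : ρ * (2 / ρ) ≤ ‖vl (Sum.elim y (a j)) (Bp i)‖ * (K * H) ^ (m + 1) :=
        mul_le_mul h4 h5 s5.le (norm_nonneg _)
      linarith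
    have hind := S.algInd hx
    have h1 : rk (Set.range x) = Fintype.card (J × σ) := rk_of_ind x hind
    obtain ⟨A, hA⟩ : ∃ A : J → Set ℂ, A = fun j => Set.range (uj Bp Gp y' (a' j) fun i => x (j, i)) :=
      ⟨_, rfl⟩
    have h2 : Set.range x ⊆ cls (Set.range y' ∪ Set.range (fun p : J × ω => a' p.1 p.2) ∪
        ⋃ j, A j) := by
      rintro _ ⟨⟨j, i⟩, rfl⟩
      have m1 : ∀ o, (Sum.elim y' (a' j)) o ∈ cls (Set.range y' ∪
          Set.range (fun p : J × ω => a' p.1 p.2) ∪ ⋃ j, A j) := by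
        rintro (o | o)
        · exact mem_cls (Or.inl (Or.inl ⟨o, rfl⟩))
        · exact mem_cls (Or.inl (Or.inr ⟨(j, o), rfl⟩))
      have m2 := cls_vl _ m1 (Bp i)
      have m3 := cls_vl _ m1 (Gp i)
      have m4 : uj Bp Gp y' (a' j) (fun i => x (j, i)) i ∈ cls (Set.range y' ∪
          Set.range (fun p : J × ω => a' p.1 p.2) ∪ ⋃ j, A j) := by
        refine mem_cls (Or.inr (Set.mem_iUnion.2 ⟨j, ?_⟩))
        rw [hA]
        exact ⟨i, rfl⟩
      have e : x (j, i) = (vl (Sum.elim y' (a' j)) (Bp i))⁻¹ *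
          (uj Bp Gp y' (a' j) (fun i => x (j, i)) i + -vl (Sum.elim y' (a' j)) (Gp i)) := by
        rw [uj, add_neg_cancel_right, ← mul_assoc, inv_mul_cancel₀ (hBne j i), one_mul]
      rw [e]
      exact cls_mul (cls_inv m2) (cls_add m4 (cls_neg m3))
    have h3 : rk (Set.range x) ≤ rk (Set.range y' ∪ ⋃ j, A j) := by
      have h3a := rk_mono h2
      rw [rk_cls] at h3a
      exact h3a.trans (rk_alg y' (fun p : J × ω => a' p.1 p.2) (fun p => halg p.1 p.2) (⋃ j, A j))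
    rw [h1, Fintype.card_prod, hA] at h3
    exact h3

end Pool.Agent.H488.R
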