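import Pool.Agent.H488.R.Cod

/-!
# Near relations between numbers `B_i(y) w_i + G_i(y)`: arbitrary complex and arbitrary real `y`
-/

set_option autoImplicit false
set_option linter.unusedSectionVars false

namespace Pool.Agent.H488.R

open Pool.Agent.H488.M (vl Bd Meas)
open Pool.Agent.H488.E (vl_conj)

variable {σ τ : Type} [Fintype σ] [Fintype τ]

/-- the indices of the coefficients -/
abbrev Ci {ρ : Type} (Q : ρ → MvPolynomial τ ℂ) : Type := (i : ρ) × (Q i).support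

/-- the coefficients -/
noncomputable def ca {ρ : Type} (Q : ρ → MvPolynomial τ ℂ) : Ci Q → ℂ := fun p => (Q p.1).coeff p.2

/-- the polynomials with variables in the place of the coefficients -/
noncomputable def cp {ρ : Type} (Q : ρ → MvPolynomial τ ℂ) (i : ρ) : MvPolynomial (τ ⊕ Ci Q) ℤ :=
  ∑ m : (Q i).support, MvPolynomial.X (Sum.inr ⟨i, m⟩) *
    ∏ l, MvPolynomial.X (Sum.inl l) ^ (m : τ →₀ ℕ) l

lemma cp_val {ρ : Type} (Q : ρ → MvPolynomial τ ℂ) (y : τ → ℂ) (i : ρ) :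
    vl (Sum.elim y (ca Q)) (cp Q i) = MvPolynomial.eval y (Q i) := by
  rw [vl, cp, map_sum, MvPolynomial.eval_eq', ← Finset.sum_coe_sort (Q i).support]
  refine Finset.sum_congr rfl fun m _ => ?_
  rw [map_mul, MvPolynomial.aeval_X, map_prod]
  congr 1
  refine Finset.prod_congr rfl fun l _ => ?_
  rw [map_pow, MvPolynomial.aeval_X]
  rfl

/-- the numbers -/
noncomputable def un (B G : σ → MvPolynomial τ ℂ) (y : τ → ℂ) (w : σ → ℂ) (i : σ) : ℂ :=
  MvPolynomial.eval y (B i) * w i + MvPolynomial.eval y (G i)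

lemma uj_eq (B G : σ → MvPolynomial τ ℂ) (y : τ → ℂ) (w : σ → ℂ) :
    uj (fun i => cp (Sum.elim B G) (Sum.inl i)) (fun i => cp (Sum.elim B G) (Sum.inr i)) y
      (ca (Sum.elim B G)) w = un B G y w := by
  funext i
  rw [uj, un, cp_val, cp_val]
  rfl

lemma rk_unit_aux (n : ℕ) (Y : Set ℂ) (A : Unit → Set ℂ)
    (h : ((Fintype.card Unit * n : ℕ) : ℕ∞) ≤ rk (Y ∪ ⋃ j, A j)) : (n : ℕ∞) ≤ rk (Y ∪ A ()) := by
  rw [Fintype.card_unit, one_mul] at h
  refine h.trans (rk_mono ?_)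
  rintro z (hz | hz)
  · exact Or.inl hz
  · obtain ⟨j, hj⟩ := Set.mem_iUnion.1 hz
    exact Or.inr hj

lemma rk_fin {ρ : Type} [Fintype ρ] (z : ρ → ℂ) : ∃ n : ℕ, rk (Set.range z) = n := by
  have h := rk_range_le z
  obtain ⟨n, hn⟩ := ENat.ne_top_iff_exists.1 (ne_top_of_le_ne_top (ENat.natCast_ne_top _) h)
  exact ⟨n, hn.symm⟩

/-- **Arbitrary complex numbers.** -/
theorem cod_one (w : σ → ℂ) (hw : Meas w) (B G : σ → MvPolynomial τ ℂ)
    (hB : ∀ i m, IsAlgebraic ℚ ((B i).coeff m)) (hG : ∀ i m, IsAlgebraic ℚ ((G i).coeff m)) (d m : ℕ) :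
    ∃ κ : ℕ, ∀ R ρ : ℝ, 0 < ρ → ∃ c : ℝ, 0 < c ∧ ∀ y : τ → ℂ, (∀ i, ‖y i‖ ≤ R) →
      (∀ i, ρ ≤ ‖MvPolynomial.eval y (B i)‖) → ∀ H : ℝ, 1 ≤ H →
      ∀ Ps : Set (MvPolynomial (τ ⊕ σ) ℤ), (∀ P ∈ Ps, Bd d H P) →
      (∀ P ∈ Ps, ‖vl (Sum.elim y (un B G y w)) P‖ < c / H ^ κ) →
      ∃ (y' : τ → ℂ) (z : σ → ℂ), (∀ l, ‖y' l - y l‖ ≤ 1 / H ^ m) ∧
        (∀ i, ‖z i - un B G y w i‖ ≤ 1 / H ^ m) ∧ (∀ P ∈ Ps, vl (Sum.elim y' z) P = 0) ∧
        (∃ S : Finset (τ ⊕ σ), S.card = Fintype.card σ ∧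
          AlgebraicIndependent ℚ fun i : S => Sum.elim y' z i) ∧
        ∃ S : Finset σ, S.card = Fintype.card σ - Fintype.card τ ∧
          AlgebraicIndependent ℚ fun i : S => z i := by
  classical
  obtain ⟨κ, h⟩ := cod_gen (J := Unit) (fun p : Unit × σ => w p.2)
    (hw.comp _ (fun p q hpq => Prod.ext (Subsingleton.elim _ _) hpq))
    (fun i => cp (Sum.elim B G) (Sum.inl i)) (fun i => cp (Sum.elim B G) (Sum.inr i))
    (fun _ => ca (Sum.elim B G)) (by
      rintro - ⟨i | i, m⟩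
      · exact hB i m
      · exact hG i m) d m
  refine ⟨κ, fun R ρ hρ => ?_⟩
  obtain ⟨c, hc, h⟩ := h R ρ hρ
  refine ⟨c, hc, fun y hy hlow H hH Ps hPs hsm => ?_⟩
  obtain ⟨y', a', hc1, hc2, hz, hr⟩ := h y hy (fun _ i => by rw [cp_val]; exact hlow i) H hH Ps hPs
    (fun P hP _ => by
      have h1 := hsm P hP
      rw [← uj_eq B G y w] at h1
      exact h1)
  obtain ⟨z, hzd⟩ : ∃ z, z = uj (fun i => cp (Sum.elim B G) (Sum.inl i))
      (fun i => cp (Sum.elim B G) (Sum.inr i)) y' (a' ()) fun i => w i := ⟨_, rfl⟩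
  have hr2 : (Fintype.card σ : ℕ∞) ≤ rk (Set.range y' ∪ Set.range z) := by
    rw [hzd]
    exact rk_unit_aux _ _ _ hr
  refine ⟨y', z, hc1, fun i => ?_, fun P hP => by rw [hzd]; exact hz P hP (), exists_coord _ _ ?_,
    exists_coord _ _ ?_⟩
  · have h1 := hc2 () i
    rw [uj_eq] at h1
    rw [hzd]
    exact h1
  · rw [Set.Sum.elim_range]
    exact hr2
  · obtain ⟨n, hn⟩ := rk_fin y'
    obtain ⟨m, hm⟩ := rk_fin z
    have h1 := (AlgebraicIndependent.matroid ℚ ℂ).eRk_union_le_eRk_add_eRk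
      (Set.range y') (Set.range z)
    change rk _ ≤ rk _ + rk _ at h1
    have h2 := hr2.trans h1
    rw [hn, hm] at h2
    have h3 : Fintype.card σ ≤ n + m := by exact_mod_cast h2
    have h4 := rk_range_le y'
    rw [hn] at h4
    have h5 : n ≤ Fintype.card τ := by exact_mod_cast h4
    rw [hm]
    exact_mod_cast (by omega : Fintype.card σ - Fintype.card τ ≤ m)

lemma ind_conj {ρ : Type} {z : ρ → ℂ} (h : AlgebraicIndependent ℚ z) :
    AlgebraicIndependent ℚ fun i => (starRingEnd ℂ) (z i) := by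
  have h1 := h.map' (f := ((Complex.conjAe.restrictScalars ℚ : ℂ ≃ₐ[ℚ] ℂ) : ℂ →ₐ[ℚ] ℂ))
    (Complex.conjAe.restrictScalars ℚ : ℂ ≃ₐ[ℚ] ℂ).injective
  exact h1

/-- **Arbitrary real numbers.** -/
theorem cod_two (w : σ → ℂ) (hw : Meas (Sum.elim w fun i => (starRingEnd ℂ) (w i)))
    (B G : σ → MvPolynomial τ ℂ) (hB : ∀ i m, IsAlgebraic ℚ ((B i).coeff m))
    (hG : ∀ i m, IsAlgebraic ℚ ((G i).coeff m)) (d m : ℕ) :
    ∃ κ : ℕ, ∀ R ρ : ℝ, 0 < ρ → ∃ c : ℝ, 0 < c ∧ ∀ y : τ → ℝ, (∀ i, |y i| ≤ R) →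
      (∀ i, ρ ≤ ‖MvPolynomial.eval (fun l => (y l : ℂ)) (B i)‖) → ∀ H : ℝ, 1 ≤ H →
      ∀ Ps : Set (MvPolynomial (τ ⊕ σ) ℤ), (∀ P ∈ Ps, Bd d H P) →
      (∀ P ∈ Ps, ‖vl (Sum.elim (fun l => (y l : ℂ)) (un B G (fun l => (y l : ℂ)) w)) P‖ < c / H ^ κ) →
      ∃ (y' : τ → ℂ) (z : σ → ℂ), (∀ l, ‖y' l - y l‖ ≤ 1 / H ^ m) ∧
        (∀ i, ‖z i - un B G (fun l => (y l : ℂ)) w i‖ ≤ 1 / H ^ m) ∧
        (∀ P ∈ Ps, vl (Sum.elim y' z) P = 0) ∧
        (∃ S : Finset (τ ⊕ σ), S.card = Fintype.card σ ∧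
          AlgebraicIndependent ℚ fun i : S => Sum.elim y' z i) ∧
        ∃ S : Finset σ, S.card = Fintype.card σ - Fintype.card τ / 2 ∧
          AlgebraicIndependent ℚ fun i : S => z i := by
  classical
  have hcc : ∀ z : ℂ, (starRingEnd ℂ) ((starRingEnd ℂ) z) = z := Complex.conj_conj
  obtain ⟨x, hx⟩ : ∃ x : Bool × σ → ℂ, x = fun p => if p.1 then (starRingEnd ℂ) (w p.2) else w p.2 :=
    ⟨_, rfl⟩
  obtain ⟨a, ha⟩ : ∃ a : Bool → Ci (Sum.elim B G) → ℂ, a = fun j q =>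
      if j then (starRingEnd ℂ) (ca (Sum.elim B G) q) else ca (Sum.elim B G) q := ⟨_, rfl⟩
  have hcaalg : ∀ q, IsAlgebraic ℚ (ca (Sum.elim B G) q) := by
    rintro ⟨i | i, m⟩
    · exact hB i m
    · exact hG i m
  have hxM : Meas x := by
    have h1 := hw.comp (fun p : Bool × σ => if p.1 then Sum.inr p.2 else Sum.inl p.2) (by
      rintro ⟨b, i⟩ ⟨b', i'⟩ h
      cases b <;> cases b' <;> simp at h <;> simp [h])
    have h2 : (fun p : Bool × σ => (Sum.elim w fun i => (starRingEnd ℂ) (w i))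
        (if p.1 then Sum.inr p.2 else Sum.inl p.2)) = x := by
      funext p
      rw [hx]
      rcases p with ⟨b, i⟩
      cases b <;> rfl
    rw [h2] at h1
    exact h1
  obtain ⟨κ, h⟩ := cod_gen (J := Bool) x hxM
    (fun i => cp (Sum.elim B G) (Sum.inl i)) (fun i => cp (Sum.elim B G) (Sum.inr i)) a (by
      intro j q
      rw [ha]
      cases j
      · exact hcaalg q
      · exact H596.Q.conj_alg _ (hcaalg q)) d m
  refine ⟨κ, fun R ρ hρ => ?_⟩
  obtain ⟨c, hc, h⟩ := h R ρ hρ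
  refine ⟨c, hc, fun y hy hlow H hH Ps hPs hsm => ?_⟩
  obtain ⟨yc, hyc⟩ : ∃ yc : τ → ℂ, yc = fun l => (y l : ℂ) := ⟨_, rfl⟩
  rw [← hyc] at hlow hsm
  have hconj : ∀ Q, vl (Sum.elim yc (a true)) Q = (starRingEnd ℂ) (vl (Sum.elim yc (a false)) Q) := by
    intro Q
    rw [← vl_conj]
    congr 1
    funext o
    rcases o with l | q
    · rw [hyc]
      exact (Complex.conj_ofReal _).symm
    · rw [ha]; rfl
  have hu0 : uj (fun i => cp (Sum.elim B G) (Sum.inl i)) (fun i => cp (Sum.elim B G) (Sum.inr i)) yc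
      (a false) (fun i => x (false, i)) = un B G yc w := by
    rw [← uj_eq, ha, hx]
    rfl
  have hu1 : uj (fun i => cp (Sum.elim B G) (Sum.inl i)) (fun i => cp (Sum.elim B G) (Sum.inr i)) yc
      (a true) (fun i => x (true, i)) = fun i => (starRingEnd ℂ) (un B G yc w i) := by
    rw [← hu0]
    funext i
    rw [uj, uj, map_add, map_mul, hconj, hconj]
    congr 2
    rw [hx]; rfl
  obtain ⟨y', a', hc1, hc2, hz, hr⟩ := h yc (fun i => by rw [hyc, Complex.norm_real, Real.norm_eq_abs]; exact hy i)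
    (fun j i => by
      have h1 : ρ ≤ ‖MvPolynomial.eval yc (Sum.elim B G (Sum.inl i))‖ := hlow i
      rw [← cp_val (Sum.elim B G) yc (Sum.inl i)] at h1
      cases j
      · rw [ha]; exact h1
      · rw [hconj, Complex.norm_conj, ha]; exact h1) H hH Ps hPs
    (fun P hP j => by
      have h1 := hsm P hP
      cases j
      · rw [hu0]; exact h1
      · rw [hu1]
        have h2 : (Sum.elim yc fun i => (starRingEnd ℂ) (un B G yc w i)) =
            fun o => (starRingEnd ℂ) (Sum.elim yc (un B G yc w) o) := by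
          funext o
          rcases o with l | i
          · rw [hyc]; exact (Complex.conj_ofReal _).symm
          · rfl
        rw [h2, vl_conj, Complex.norm_conj]
        exact h1)
  -- ranks
  obtain ⟨A, hA⟩ : ∃ A : Bool → σ → ℂ, A = fun j => uj (fun i => cp (Sum.elim B G) (Sum.inl i))
      (fun i => cp (Sum.elim B G) (Sum.inr i)) y' (a' j) fun i => x (j, i) := ⟨_, rfl⟩
  have hz' : ∀ P ∈ Ps, ∀ j, vl (Sum.elim y' (A j)) P = 0 := by
    intro P hP j
    rw [hA]
    exact hz P hP j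
  have hr' : ((2 * Fintype.card σ : ℕ) : ℕ∞) ≤
      rk ((Set.range y' ∪ Set.range (A false)) ∪ (Set.range y' ∪ Set.range (A true))) := by
    rw [Fintype.card_bool] at hr
    refine hr.trans (rk_mono ?_)
    rintro z (hz | hz)
    · exact Or.inl (Or.inl hz)
    · obtain ⟨j, hj⟩ := Set.mem_iUnion.1 hz
      cases j
      · exact Or.inl (Or.inr (by rw [hA]; exact hj))
      · exact Or.inr (Or.inr (by rw [hA]; exact hj))
  obtain ⟨n, hn⟩ := rk_fin y'
  have hns : n ≤ Fintype.card τ := by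
    have := rk_range_le y'
    rw [hn] at this
    exact_mod_cast this
  choose p hp using fun j => rk_fin (Sum.elim y' (A j))
  choose q hq using fun j => rk_fin (A j)
  have hp' : ∀ j, rk (Set.range y' ∪ Set.range (A j)) = p j := fun j => by
    rw [← Set.Sum.elim_range, hp]
  have hsub : 2 * Fintype.card σ + n ≤ p false + p true := by
    have h1 := (AlgebraicIndependent.matroid ℚ ℂ).eRk_inter_add_eRk_union_le
      (Set.range y' ∪ Set.range (A false)) (Set.range y' ∪ Set.range (A true))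
    have h2 : rk (Set.range y') ≤ rk ((Set.range y' ∪ Set.range (A false)) ∩
        (Set.range y' ∪ Set.range (A true))) :=
      rk_mono fun z hz => ⟨Or.inl hz, Or.inl hz⟩
    have h3 : rk (Set.range y') + ((2 * Fintype.card σ : ℕ) : ℕ∞) ≤
        rk (Set.range y' ∪ Set.range (A false)) + rk (Set.range y' ∪ Set.range (A true)) :=
      (add_le_add h2 hr').trans h1
    rw [hn, hp', hp'] at h3
    have h4 : n + 2 * Fintype.card σ ≤ p false + p true := by exact_mod_cast h3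
    omega
  have hle : ∀ j, p j ≤ n + q j := by
    intro j
    have h1 := (AlgebraicIndependent.matroid ℚ ℂ).eRk_union_le_eRk_add_eRk
      (Set.range y') (Set.range (A j))
    change rk _ ≤ rk _ + rk _ at h1
    rw [hp', hn, hq] at h1
    exact_mod_cast h1
  obtain ⟨j, hj⟩ : ∃ j, p false + p true ≤ 2 * p j := by
    rcases le_total (p false) (p true) with h1 | h1
    · exact ⟨true, by omega⟩
    · exact ⟨false, by omega⟩
  have hS1 : ∃ S : Finset (τ ⊕ σ), S.card = Fintype.card σ ∧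
      AlgebraicIndependent ℚ fun i : S => Sum.elim y' (A j) i := by
    refine exists_coord _ _ ?_
    rw [hp]
    exact_mod_cast (by omega : Fintype.card σ ≤ p j)
  have hS2 : ∃ S : Finset σ, S.card = Fintype.card σ - Fintype.card τ / 2 ∧
      AlgebraicIndependent ℚ fun i : S => A j i := by
    refine exists_coord _ _ ?_
    rw [hq]
    have h1 := hle j
    exact_mod_cast (by omega : Fintype.card σ - Fintype.card τ / 2 ≤ q j)
  have hcl : ∀ i, ‖A j i - uj (fun i => cp (Sum.elim B G) (Sum.inl i))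
      (fun i => cp (Sum.elim B G) (Sum.inr i)) yc (a j) (fun i => x (j, i)) i‖ ≤ 1 / H ^ m := by
    intro i
    rw [hA]
    exact hc2 j i
  have hyl : ∀ l, (starRingEnd ℂ) (yc l) = yc l := fun l => by rw [hyc]; exact Complex.conj_ofReal _
  rw [← hyc]
  cases j
  · refine ⟨y', A false, fun l => ?_, fun i => ?_, fun P hP => hz' P hP false, hS1, hS2⟩
    · have h1 := hc1 l
      rw [hyc] at h1
      exact h1
    · have h1 := hcl i
      rw [hu0] at h1
      exact h1
  · refine ⟨fun l => (starRingEnd ℂ) (y' l), fun i => (starRingEnd ℂ) (A true i), fun l => ?_,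
      fun i => ?_, fun P hP => ?_, ?_, ?_⟩
    · have h1 := hc1 l
      rw [← Complex.norm_conj, map_sub, hyl, hyc] at h1
      exact h1
    · have h1 := hcl i
      rw [hu1, ← Complex.norm_conj, map_sub, hcc] at h1
      exact h1
    · have h1 : (Sum.elim (fun l => (starRingEnd ℂ) (y' l)) fun i => (starRingEnd ℂ) (A true i)) =
          fun o => (starRingEnd ℂ) (Sum.elim y' (A true) o) := by
        funext o
        rcases o with l | i <;> rfl
      rw [h1, vl_conj, hz' P hP true, map_zero]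
    · obtain ⟨S, hS, hi⟩ := hS1
      refine ⟨S, hS, ?_⟩
      have h2 := ind_conj hi
      have h3 : (fun i : S => (starRingEnd ℂ) (Sum.elim y' (A true) i)) =
          fun i : S => Sum.elim (fun l => (starRingEnd ℂ) (y' l))
            (fun i => (starRingEnd ℂ) (A true i)) i := by
        funext i
        rcases i with ⟨l | i, hi⟩ <;> rfl
      rw [h3] at h2
      exact h2
    · obtain ⟨S, hS, hi⟩ := hS2
      exact ⟨S, hS, ind_conj hi⟩

end Pool.Agent.H488.R
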