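import Pool.Agent.H488.E.Cj

/-!
# One unknown real number, and a family which is independent of its complex conjugate
-/

set_option autoImplicit false
set_option linter.unusedSectionVars false

namespace Pool.Agent.H488.R

open Polynomial
open Pool.Agent.H488.M (vl Bd Meas pt vl_mul elimM)
open Pool.Agent.H596.Q (ev univ factor_height ren_coeff ren_degree ren_degree_zero
  ren_degree_le dvd_degree box mem_box)
open Pool.Agent.N743.SS (lenM)
open Pool.Agent.H488.E (vl_conj)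

variable {σ τ : Type} [Fintype σ] [Fintype τ]

/-- a polynomial in one variable without nonzero roots -/
lemma low_noroot (A : ℤ[X]) (hA : A ≠ 0) (d : ℕ) (hAd : A.natDegree ≤ d) (ρ : ℝ) (hρ : 0 < ρ)
    (hρ1 : ρ ≤ 1) (y : ℂ) (h : ∀ z : ℂ, (z ≠ 0 ∨ ‖y‖ < ρ) → aeval z A ≠ 0) :
    ρ ^ d ≤ ‖aeval y A‖ := by
  obtain ⟨B, hB⟩ : ∃ B : ℂ[X], B = A.map (Int.castRingHom ℂ) := ⟨_, rfl⟩
  have hev : ∀ z : ℂ, B.eval z = aeval z A := by
    intro z
    rw [hB, eval_map, aeval_def]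
    rfl
  have hlead : B.leadingCoeff = (A.leadingCoeff : ℂ) := by
    rw [hB, leadingCoeff_map_of_injective (RingHom.injective_int (Int.castRingHom ℂ))]
    rfl
  have hB0 : B ≠ 0 := by
    rw [hB]
    exact (Polynomial.map_ne_zero_iff (RingHom.injective_int (Int.castRingHom ℂ))).2 hA
  have hsp := IsAlgClosed.splits B
  have hprod : aeval y A = (A.leadingCoeff : ℂ) * (B.roots.map fun a => y - a).prod := by
    rw [← hev, ← hlead]
    conv_lhs => rw [hsp.eq_prod_roots]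
    rw [eval_mul, eval_C, eval_multiset_prod, Multiset.map_map]
    congr 2
    refine Multiset.map_congr rfl fun a _ => ?_
    simp
  have hl1 : (1 : ℝ) ≤ ‖(A.leadingCoeff : ℂ)‖ := by
    rw [Complex.norm_intCast]
    exact_mod_cast Int.one_le_abs (leadingCoeff_ne_zero.2 hA)
  have hcard : Multiset.card B.roots ≤ d := by
    refine (card_roots' B).trans ?_
    rw [hB]
    exact natDegree_map_le.trans hAd
  have hroot : ∀ a ∈ B.roots, a = 0 ∧ ρ ≤ ‖y‖ := by
    intro a ha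
    by_contra hcon
    refine h a ?_ ?_
    · by_contra h2
      push Not at h2
      exact hcon ⟨h2.1, h2.2⟩
    · rw [← hev]
      exact (mem_roots hB0).1 ha
  have hmul : ∀ s : Multiset ℂ, (∀ a ∈ s, a = 0 ∧ ρ ≤ ‖y‖) →
      ρ ^ Multiset.card s ≤ ‖(s.map fun a => y - a).prod‖ := by
    intro s
    induction s using Multiset.induction with
    | empty => intro _; simp
    | cons a s ih =>
      intro hs
      rw [Multiset.card_cons, Multiset.map_cons, Multiset.prod_cons, norm_mul, pow_succ, mul_comm]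
      obtain ⟨ha, hy⟩ := hs a (Multiset.mem_cons_self a s)
      refine mul_le_mul ?_ (ih fun b hb => hs b (Multiset.mem_cons_of_mem hb)) (by positivity)
        (norm_nonneg _)
      rw [ha, sub_zero]
      exact hy
  rw [hprod, norm_mul]
  calc ρ ^ d ≤ ρ ^ Multiset.card B.roots := pow_le_pow_of_le_one hρ.le hρ1 hcard
    _ ≤ ‖(B.roots.map fun a => y - a).prod‖ := hmul _ hroot
    _ = 1 * ‖(B.roots.map fun a => y - a).prod‖ := (one_mul _).symm
    _ ≤ _ := mul_le_mul_of_nonneg_right hl1 (norm_nonneg _)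

/-- two polynomials whose common divisors depend on the first variable only and are not small -/
theorem partH (θ : σ → ℂ) (hθ : Meas θ) (d : ℕ) :
    ∃ κ : ℕ, ∀ T ρ : ℝ, 0 < ρ → ρ ≤ 1 → ∃ c : ℝ, 0 < c ∧ ∀ t : ℂ, ‖t‖ ≤ T →
      ∀ P Q : MvPolynomial (Option σ) ℤ, P ≠ 0 → Q ≠ 0 →
      (∀ D, D ∣ P → D ∣ Q → ∀ i, D.degreeOf (some i) = 0) →
      (∀ y₀ : ℂ, (y₀ ≠ 0 ∨ ‖t‖ < ρ) → ∃ α : σ → ℂ, ev y₀ α P ≠ 0) →
      ∀ H : ℝ, 1 ≤ H → Bd d H P → Bd d H Q →
      c ≤ H ^ κ * max ‖vl (pt t θ) P‖ ‖vl (pt t θ) Q‖ := by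
  classical
  obtain ⟨κ₂, h₂⟩ := elimM θ hθ d
  obtain ⟨B, hB, hfac⟩ := factor_height (τ := Option σ) d
  refine ⟨κ₂, fun T ρ hρ hρ1 => ?_⟩
  obtain ⟨c₂, hc₂, h₂⟩ := h₂ T
  refine ⟨ρ ^ d * c₂ / B ^ κ₂, by positivity, fun t ht P Q hP hQ hPQ hroot H hH hPH hQH => ?_⟩
  have hH0 : 0 ≤ H := by linarith
  let inst : GCDMonoid (MvPolynomial (Option σ) ℤ) := UniqueFactorizationMonoid.toGCDMonoid _
  obtain ⟨D, hD⟩ : ∃ D, D = gcd P Q := ⟨_, rfl⟩
  have hDP : D ∣ P := by rw [hD]; exact gcd_dvd_left _ _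
  have hDQ : D ∣ Q := by rw [hD]; exact gcd_dvd_right _ _
  obtain ⟨P', hP'⟩ := hDP
  obtain ⟨Q', hQ'⟩ := hDQ
  have hD0 : D ≠ 0 := fun h0 => hP (by rw [hP', h0, zero_mul])
  have hrel : ∀ F, F ∣ P' → F ∣ Q' → F.degreeOf none = 0 := by
    intro F h3 h4
    have h5 : D * F ∣ D := by
      have h6 : D * F ∣ gcd P Q := dvd_gcd (by rw [hP']; exact mul_dvd_mul_left _ h3)
        (by rw [hQ']; exact mul_dvd_mul_left _ h4)
      rwa [← hD] at h6
    obtain ⟨G, hG⟩ := h5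
    have h7 : F * G = 1 := by
      have h8 : D * (F * G) = D * 1 := by rw [mul_one, ← mul_assoc]; exact hG.symm
      exact mul_left_cancel₀ hD0 h8
    have hF0 : F ≠ 0 := left_ne_zero_of_mul (by rw [h7]; exact one_ne_zero)
    have hG0 : G ≠ 0 := right_ne_zero_of_mul (by rw [h7]; exact one_ne_zero)
    have h9 := MvPolynomial.degreeOf_mul_eq (n := none) hF0 hG0
    rw [h7, MvPolynomial.degreeOf_one] at h9
    omega
  obtain ⟨A, hA0, hAd, hAc, hAv⟩ := univ D (hPQ D ⟨P', hP'⟩ ⟨Q', hQ'⟩)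
  obtain ⟨hDd, hDH⟩ := hfac P D hP ⟨P', hP'⟩ hPH.1 H hH0 hPH.2
  obtain ⟨hP'd, hP'H⟩ := hfac P P' hP ⟨D, by rw [hP']; ring⟩ hPH.1 H hH0 hPH.2
  obtain ⟨hQ'd, hQ'H⟩ := hfac Q Q' hQ ⟨D, by rw [hQ']; ring⟩ hQH.1 H hH0 hQH.2
  have hBH : 1 ≤ B * H := one_le_mul_of_one_le_of_one_le hB hH
  have hAroot : ∀ z : ℂ, (z ≠ 0 ∨ ‖t‖ < ρ) → aeval z A ≠ 0 := by
    intro z hz h0
    obtain ⟨α, hα⟩ := hroot z hz
    apply hα
    have h3 : ev z α P = ev z α D * ev z α P' := by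
      rw [hP', ev, ev, ev, map_mul]
    rw [h3, hAv, h0, zero_mul]
  have e1 := low_noroot A (hA0 hD0) d (hAd.trans (hDd none)) ρ hρ hρ1 t hAroot
  have e2 := h₂ t ht P' Q' hrel (B * H) hBH ⟨hP'd, hP'H⟩ ⟨hQ'd, hQ'H⟩
  have hev : vl (pt t θ) D = ev t (fun i => Complex.log (θ i)) D := by
    rw [vl, ev]
    congr 2
    funext o
    rcases o with _ | i
    · rfl
    · show θ i = Complex.exp (Complex.log (θ i))
      rw [Complex.exp_log (M.meas_ne hθ i)]
  rw [← hAv t (fun i => Complex.log (θ i)), ← hev] at e1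
  have e3 : max ‖vl (pt t θ) P‖ ‖vl (pt t θ) Q‖ = ‖vl (pt t θ) D‖ *
      max ‖vl (pt t θ) P'‖ ‖vl (pt t θ) Q'‖ := by
    rw [hP', hQ', vl_mul, vl_mul, norm_mul, norm_mul, mul_max_of_nonneg _ _ (norm_nonneg _)]
  rw [e3, div_le_iff₀ (by positivity)]
  calc ρ ^ d * c₂ ≤ ‖vl (pt t θ) D‖ * ((B * H) ^ κ₂ *
        max ‖vl (pt t θ) P'‖ ‖vl (pt t θ) Q'‖) :=
        mul_le_mul e1 e2 hc₂.le (norm_nonneg _)
    _ = _ := by rw [mul_pow]; ring

/-- **One unknown real number.** -/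
theorem realA (θ : σ → ℂ) (h : Meas (Sum.elim θ fun i => (starRingEnd ℂ) (θ i))) (d : ℕ) :
    ∃ κ : ℕ, ∀ T ρ : ℝ, 0 < ρ → ρ ≤ 1 → ∃ c : ℝ, 0 < c ∧ ∀ y : ℝ, |y| ≤ T →
      ∀ P : MvPolynomial (Option σ) ℤ, P ≠ 0 →
      (∀ y₀ : ℂ, (y₀ ≠ 0 ∨ |y| < ρ) → ∃ x : σ → ℂ, (∀ i, x i ≠ 0) ∧ vl (pt y₀ x) P ≠ 0) →
      ∀ H : ℝ, 1 ≤ H → Bd d H P → c ≤ H ^ κ * ‖vl (pt (y : ℂ) θ) P‖ := by
  classical
  obtain ⟨κ, hk⟩ := partH (Sum.elim θ fun i => (starRingEnd ℂ) (θ i)) h d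
  refine ⟨κ, fun T ρ hρ hρ1 => ?_⟩
  obtain ⟨c, hc, hk⟩ := hk T ρ hρ hρ1
  refine ⟨c, hc, fun y hy P hP hroot H hH hPH => ?_⟩
  have hH0 : 0 ≤ H := by linarith
  have hyn : ‖(y : ℂ)‖ = |y| := by rw [Complex.norm_real, Real.norm_eq_abs]
  have hl : Function.Injective (Option.map (Sum.inl : σ → σ ⊕ σ)) :=
    Option.map_injective Sum.inl_injective
  have hr : Function.Injective (Option.map (Sum.inr : σ → σ ⊕ σ)) :=
    Option.map_injective Sum.inr_injective
  have hP0 : MvPolynomial.rename (Option.map (Sum.inl : σ → σ ⊕ σ)) P ≠ 0 := by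
    rw [Ne, map_eq_zero_iff _ (MvPolynomial.rename_injective _ hl)]; exact hP
  have hQ0 : MvPolynomial.rename (Option.map (Sum.inr : σ → σ ⊕ σ)) P ≠ 0 := by
    rw [Ne, map_eq_zero_iff _ (MvPolynomial.rename_injective _ hr)]; exact hP
  have h1 := hk (y : ℂ) (by rw [hyn]; exact hy) (MvPolynomial.rename (Option.map Sum.inl) P)
    (MvPolynomial.rename (Option.map Sum.inr) P) hP0 hQ0 (fun D hD1 hD2 i => by
      rcases i with i | i
      · refine dvd_degree D _ hQ0 hD2 _ (ren_degree_zero _ _ _ ?_)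
        rintro ⟨o, ho⟩
        rcases o with _ | o <;> simp at ho
      · refine dvd_degree D _ hP0 hD1 _ (ren_degree_zero _ _ _ ?_)
        rintro ⟨o, ho⟩
        rcases o with _ | o <;> simp at ho)
    (fun y₀ hy₀ => by
      rw [hyn] at hy₀
      obtain ⟨x, hx, hxP⟩ := hroot y₀ hy₀
      refine ⟨Sum.elim (fun i => Complex.log (x i)) fun _ => 0, ?_⟩
      have e0 : ev y₀ (Sum.elim (fun i => Complex.log (x i)) fun _ => 0)
          (MvPolynomial.rename (Option.map (Sum.inl : σ → σ ⊕ σ)) P) = vl (pt y₀ x) P := by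
        rw [ev, vl, MvPolynomial.aeval_rename]
        congr 2
        funext o
        rcases o with _ | i
        · rfl
        · show Complex.exp (Complex.log (x i)) = x i
          rw [Complex.exp_log (hx i)]
      rw [e0]
      exact hxP) H hH
    ⟨ren_degree_le _ hl P d hPH.1, ren_coeff _ hl P H hH0 hPH.2⟩
    ⟨ren_degree_le _ hr P d hPH.1, ren_coeff _ hr P H hH0 hPH.2⟩
  have e1 : vl (pt (y : ℂ) (Sum.elim θ fun i => (starRingEnd ℂ) (θ i)))
      (MvPolynomial.rename (Option.map Sum.inl) P) = vl (pt (y : ℂ) θ) P := by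
    rw [vl, vl, MvPolynomial.aeval_rename]
    congr 2
    funext o
    rcases o with _ | i <;> rfl
  have e2 : vl (pt (y : ℂ) (Sum.elim θ fun i => (starRingEnd ℂ) (θ i)))
      (MvPolynomial.rename (Option.map Sum.inr) P) = (starRingEnd ℂ) (vl (pt (y : ℂ) θ) P) := by
    rw [← vl_conj, vl, vl, MvPolynomial.aeval_rename]
    congr 2
    funext o
    rcases o with _ | i
    · show (y : ℂ) = (starRingEnd ℂ) (y : ℂ)
      rw [Complex.conj_ofReal]
    · rfl
  rw [e1, e2, Complex.norm_conj, max_self] at h1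
  exact h1

/-- the size of polynomials after a fixed substitution -/
lemma subst_Bd (F : σ → MvPolynomial τ ℤ) (d : ℕ) : ∃ (d' : ℕ) (B : ℝ), 1 ≤ B ∧
    ∀ (P : MvPolynomial σ ℤ) (H : ℝ), 0 ≤ H → Bd d H P → Bd d' (B * H) (MvPolynomial.aeval F P) := by
  classical
  obtain ⟨M, hM⟩ : ∃ M : (σ →₀ ℕ) → MvPolynomial τ ℤ, M = fun m => ∏ i, F i ^ m i := ⟨_, rfl⟩
  refine ⟨∑ m ∈ box σ d, ∑ o, (M m).degreeOf o, 1 + ∑ m ∈ box σ d, lenM (M m), ?_, ?_⟩
  · have : 0 ≤ ∑ m ∈ box σ d, lenM (M m) := Finset.sum_nonneg fun m _ => by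
      rw [lenM]; exact Finset.sum_nonneg fun _ _ => abs_nonneg _
    linarith
  · intro P H hH hP
    have hlen : ∀ Q : MvPolynomial τ ℤ, ∀ ν, |((Q.coeff ν : ℤ) : ℝ)| ≤ lenM Q := by
      intro Q ν
      rw [lenM]
      by_cases hν : ν ∈ Q.support
      · exact Finset.single_le_sum (f := fun l => |((Q.coeff l : ℤ) : ℝ)|)
          (fun _ _ => abs_nonneg _) hν
      · rw [MvPolynomial.notMem_support_iff.1 hν, Int.cast_zero, abs_zero]
        exact Finset.sum_nonneg fun _ _ => abs_nonneg _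
    have hsub : P.support ⊆ box σ d := fun m hm =>
      mem_box d m fun i => (MvPolynomial.degreeOf_le_iff.1 (hP.1 i)) m hm
    have hexp : MvPolynomial.aeval F P = ∑ m ∈ box σ d, MvPolynomial.C (P.coeff m) * M m := by
      rw [MvPolynomial.aeval_def, MvPolynomial.eval₂_eq', hM]
      refine (Finset.sum_subset hsub fun m _ hm => ?_).trans rfl
      rw [MvPolynomial.notMem_support_iff.1 hm, map_zero, zero_mul]
    constructor
    · intro o
      rw [hexp]
      refine (MvPolynomial.degreeOf_sum_le _ _ _).trans (Finset.sup_le fun m hm => ?_)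
      refine (MvPolynomial.degreeOf_C_mul_le _ _ _).trans ?_
      refine (Finset.single_le_sum (f := fun o => (M m).degreeOf o) (fun _ _ => Nat.zero_le _)
        (Finset.mem_univ o)).trans ?_
      exact Finset.single_le_sum (f := fun m => ∑ o, (M m).degreeOf o) (fun _ _ => Nat.zero_le _) hm
    · intro ν
      rw [hexp, MvPolynomial.coeff_sum, Int.cast_sum]
      refine (Finset.abs_sum_le_sum_abs _ _).trans ?_
      have h1 : ∀ m ∈ box σ d, |((MvPolynomial.coeff ν (MvPolynomial.C (P.coeff m) * M m) : ℤ) : ℝ)| ≤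
          lenM (M m) * H := by
        intro m _
        rw [MvPolynomial.coeff_C_mul, Int.cast_mul, abs_mul, mul_comm]
        exact mul_le_mul (hlen _ _) (hP.2 m) (abs_nonneg _) (by
          rw [lenM]; exact Finset.sum_nonneg fun _ _ => abs_nonneg _)
      refine (Finset.sum_le_sum h1).trans ?_
      rw [← Finset.sum_mul]
      nlinarith

/-- the polynomials `Y^m X + g(Y)` -/
noncomputable def lf (m : σ → ℕ) (g : σ → ℤ[X]) (i : σ) : MvPolynomial (Option σ) ℤ :=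
  MvPolynomial.X none ^ m i * MvPolynomial.X (some i) + aeval (MvPolynomial.X none) (g i)

lemma lf_val (m : σ → ℕ) (g : σ → ℤ[X]) (y : ℂ) (x : σ → ℂ) (i : σ) :
    vl (pt y x) (lf m g i) = y ^ m i * x i + aeval y (g i) := by
  rw [vl, lf, map_add, map_mul, map_pow, MvPolynomial.aeval_X, MvPolynomial.aeval_X,
    ← Polynomial.aeval_algHom_apply, MvPolynomial.aeval_X]
  rfl

lemma lf_comp (m : σ → ℕ) (g : σ → ℤ[X]) (y : ℂ) (x : σ → ℂ) (P : MvPolynomial σ ℤ) :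
    vl (pt y x) (MvPolynomial.aeval (lf m g) P) =
      vl (fun i => y ^ m i * x i + aeval y (g i)) P := by
  rw [vl, vl, MvPolynomial.comp_aeval_apply]
  congr 2
  funext i
  exact lf_val m g y x i

end Pool.Agent.H488.R
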