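import Pool.Agent.H488.E.Cj2

/-!
# Values at points which are not real, together with their complex conjugates
-/

set_option autoImplicit false
set_option linter.unusedSectionVars false

namespace Pool.Agent.H488.R

open Pool.Agent.H488.M (vl Bd Meas)
open Pool.Agent.H488.E (th th_conj meas_th)

variable {κ₁ κ₂ ε : Type} [Fintype κ₁] [Fintype κ₂] [Fintype ε]

/-- **The measure.** -/
theorem meas_th_conj (l : κ₁ → ℕ) (α : κ₁ → ℂ) (k : κ₂ → ℕ) (x : κ₂ → ℂ)
    (β : ε → ℂ) (hl : ∀ i, 1 ≤ l i) (hα : ∀ i, IsAlgebraic ℚ (α i) ∧ α i ≠ 0)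
    (hlα : Function.Injective fun i => (l i, α i)) (hlα2 : ∀ i j, (l i, α i) ≠ (l j, (starRingEnd ℂ) (α j)))
    (hk : ∀ i, 2 ≤ k i) (hx : ∀ i, IsAlgebraic ℚ (x i)) (hx2 : ∀ i j, x i + x j ≠ 0)
    (hx3 : ∀ i j, x i + (starRingEnd ℂ) (x j) ≠ 0)
    (hkx : Function.Injective fun i => (k i, x i)) (hkx2 : ∀ i j, (k i, x i) ≠ (k j, (starRingEnd ℂ) (x j)))
    (hβ : ∀ i, IsAlgebraic ℚ (β i))
    (hβl : LinearIndependent ℚ (Sum.elim β fun i => (starRingEnd ℂ) (β i))) :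
    Meas (Sum.elim (Sum.elim (th l α k x) fun i => Complex.exp (β i)) fun i => (starRingEnd ℂ)
      ((Sum.elim (th l α k x) fun i => Complex.exp (β i) : (κ₁ ⊕ κ₂) ⊕ ε → ℂ) i)) := by
  classical
  have hc : ∀ z : ℂ, (starRingEnd ℂ) ((starRingEnd ℂ) z) = z := Complex.conj_conj
  have h1 := meas_th (κ₁ := κ₁ ⊕ κ₁) (κ₂ := κ₂ ⊕ κ₂) (ε := ε ⊕ ε) (Sum.elim l l)
    (Sum.elim α fun i => (starRingEnd ℂ) (α i)) (Sum.elim k k) (Sum.elim x fun i => (starRingEnd ℂ) (x i))
    (Sum.elim β fun i => (starRingEnd ℂ) (β i))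
    (by rintro (i | i) <;> exact hl i)
    (by
      rintro (i | i)
      · exact hα i
      · exact ⟨H596.Q.conj_alg _ (hα i).1, fun h => (hα i).2 (by rw [← hc (α i), Sum.elim_inr] at *; rw [h, map_zero])⟩)
    (by
      rintro (i | i) (j | j) h
      · exact congrArg _ (hlα h)
      · exact absurd h (hlα2 i j)
      · exact absurd h.symm (hlα2 j i)
      · refine congrArg _ (hlα ?_)
        have h2 := congrArg (fun z : ℕ × ℂ => (z.1, (starRingEnd ℂ) z.2)) h
        simpa only [Sum.elim_inr, hc] using h2)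
    (by rintro (i | i) <;> exact hk i)
    (by
      rintro (i | i)
      · exact hx i
      · exact H596.Q.conj_alg _ (hx i))
    (by
      rintro (i | i) (j | j)
      · exact hx2 i j
      · exact hx3 i j
      · rw [Sum.elim_inr, Sum.elim_inl, add_comm]; exact hx3 j i
      · rw [Sum.elim_inr, Sum.elim_inr, ← map_add]
        intro h
        exact hx2 i j (by rw [← hc (x i + x j), h, map_zero]))
    (by
      rintro (i | i) (j | j) h
      · exact congrArg _ (hkx h)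
      · exact absurd h (hkx2 i j)
      · exact absurd h.symm (hkx2 j i)
      · refine congrArg _ (hkx ?_)
        have h2 := congrArg (fun z : ℕ × ℂ => (z.1, (starRingEnd ℂ) z.2)) h
        simpa only [Sum.elim_inr, hc] using h2)
    (by
      rintro (i | i)
      · exact hβ i
      · exact H596.Q.conj_alg _ (hβ i)) hβl
  obtain ⟨θ, hθ⟩ : ∃ θ : (κ₁ ⊕ κ₂) ⊕ ε → ℂ, θ = Sum.elim (th l α k x) fun i => Complex.exp (β i) :=
    ⟨_, rfl⟩
  obtain ⟨f, hf⟩ : ∃ f : ((κ₁ ⊕ κ₂) ⊕ ε) ⊕ ((κ₁ ⊕ κ₂) ⊕ ε) → ((κ₁ ⊕ κ₁) ⊕ (κ₂ ⊕ κ₂)) ⊕ (ε ⊕ ε),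
      f = Sum.elim (Sum.elim (Sum.elim (fun i => Sum.inl (Sum.inl (Sum.inl i)))
        fun i => Sum.inl (Sum.inr (Sum.inl i))) fun i => Sum.inr (Sum.inl i))
        (Sum.elim (Sum.elim (fun i => Sum.inl (Sum.inl (Sum.inr i)))
        fun i => Sum.inl (Sum.inr (Sum.inr i))) fun i => Sum.inr (Sum.inr i)) := ⟨_, rfl⟩
  have hfi : Function.Injective f := by
    rw [hf]
    rintro (((i | i) | i) | ((i | i) | i)) (((j | j) | j) | ((j | j) | j)) h <;>
      simp only [Sum.elim_inl, Sum.elim_inr, Sum.inl.injEq, Sum.inr.injEq, reduceCtorEq] at h <;>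
      rw [h]
  have h2 := M.Meas.comp h1 f hfi
  have h3 : (fun i => (Sum.elim (th (Sum.elim l l) (Sum.elim α fun i => (starRingEnd ℂ) (α i)) (Sum.elim k k)
      (Sum.elim x fun i => (starRingEnd ℂ) (x i))) fun i => Complex.exp ((Sum.elim β fun i => (starRingEnd ℂ) (β i)) i)) (f i)) =
      Sum.elim θ fun i => (starRingEnd ℂ) (θ i) := by
    funext i
    rw [hf, hθ]
    rcases i with ((i | i) | i) | ((i | i) | i)
    · rfl
    · rfl
    · rfl
    · simp only [Sum.elim_inl, Sum.elim_inr]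
      rw [th_conj]; rfl
    · simp only [Sum.elim_inl, Sum.elim_inr]
      rw [th_conj]; rfl
    · simp only [Sum.elim_inl, Sum.elim_inr]
      rw [← Complex.exp_conj]
  rw [h3] at h2
  rw [← hθ]
  exact h2

end Pool.Agent.H488.R
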